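import Pool.Agent.W761.CP.Defs

/-!
Project CP, part IN: the inner operator.
-/

set_option autoImplicit false

namespace Pool.Agent.W479.CP

open MeasureTheory Pool.Agent.W761.CP
open Pool.Agent.Helper209.CX (Ed L2d InH1 dirichlet IsHu)
open scoped ENNReal InnerProductSpace

theorem inn : S_POI → S_BUMP → S_IN1 → S_IN2 → S_IN := by
  intro hPOI hBUMP hIN1 hIN2 d hd
  obtain ⟨C0, hC0, hQ⟩ := hPOI d hd
  obtain ⟨c0, hc0, hB⟩ := hBUMP d hd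
  refine ⟨c0 / 24 ^ ((d : ℝ) / 2), by positivity, fun W M χ b φ a hW hM hL => ?_⟩
  have hM0 : 0 < M := by linarith
  obtain ⟨h1, hh1, hB1⟩ := hB (M / 24) (by positivity)
  obtain ⟨S, hS⟩ : ∃ S, S = Real.sqrt (4 * C0 * M) := ⟨_, rfl⟩
  have hS0 : 0 < S := by rw [hS]; exact Real.sqrt_pos.2 (by positivity)
  have hS2 : S ^ 2 = 4 * C0 * M := by rw [hS]; exact Real.sq_sqrt (by positivity)
  obtain ⟨C1, hC1⟩ : ∃ C1, C1 = S + 1 := ⟨_, rfl⟩
  have hC11 : 1 ≤ C1 := by linarith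
  have hC1d : 1 ≤ C1 ^ d := one_le_pow₀ hC11
  have hC12 : C1 ^ d ≤ C1 ^ (2 * d) := pow_le_pow_right₀ hC11 (by omega)
  refine ⟨24 * C1 ^ (2 * d), min h1 1, by linarith, lt_min hh1 one_pos, min_le_right _ _,
    fun h hh hlt => ?_⟩
  have hlt1 : h < h1 := lt_of_lt_of_le hlt (min_le_left _ _)
  have hle1 : h ≤ 1 := (lt_of_lt_of_le hlt (min_le_right _ _)).le
  obtain ⟨m, hm⟩ : ∃ m, m = ⌈S / h⌉₊ := ⟨_, rfl⟩
  have hSh : 0 < S / h := div_pos hS0 hh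
  have hm1 : 1 ≤ m := by rw [hm]; exact Nat.one_le_ceil_iff.2 hSh
  have hmlow : S / h ≤ m := by rw [hm]; exact Nat.le_ceil _
  have hmup : (m : ℝ) ≤ S / h + 1 := by rw [hm]; exact (Nat.ceil_lt_add_one hSh.le).le
  have hmh1 : S ≤ m * h := by
    rw [div_le_iff₀ hh] at hmlow
    exact hmlow
  have hmh2 : (m : ℝ) * h ≤ C1 := by
    have := mul_le_mul_of_nonneg_right hmup hh.le
    rw [add_mul, div_mul_cancel₀ _ hh.ne', one_mul] at this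
    linarith
  have hm2 : 4 * C0 * M ≤ (m : ℝ) ^ 2 * h ^ 2 := by
    rw [← hS2, ← mul_pow]
    exact pow_le_pow_left₀ hS0.le hmh1 2
  obtain ⟨Q, hQm⟩ := hQ m hm1
  obtain ⟨l, hl1, hl2, hgap⟩ := hIN1 d W M χ b φ a h C0 m Q hd hW hM hL hh hC0 hm1 hQm hm2
  obtain ⟨κ0, hκ⟩ : ∃ κ0, κ0 = (M / 12) / (8 * ((m : ℝ) ^ d + 1) * ((m : ℝ) ^ d + 2)) := ⟨_, rfl⟩
  rw [← hκ] at hgap
  have hκ0 : 0 < κ0 := by rw [hκ]; positivity
  have hη0 : 0 < min 1 κ0 := lt_min one_pos hκ0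
  have hgap' : ∀ v f : L2d d, Hu h (Vin W M χ) v ((l : ℂ) • v + f) → min 1 κ0 * ‖v‖ ≤ ‖f‖ :=
    fun v f hv => (mul_le_mul_of_nonneg_right (min_le_right _ _) (norm_nonneg _)).trans
      (hgap v f hv)
  obtain ⟨n, ψ, E, hn, hψ, hE, hmax⟩ := hIN2 d W M χ b φ a h C0 l (min 1 κ0) m Q hd hW hM hL hh
    hC0 hm1 hQm hm2 hl1 hl2 hη0 (min_le_left _ _) hgap'
  obtain ⟨N, θ, g, hN, hθ, hg, hsupp, hbd⟩ := hB1 h hh hlt1
  have hNn := hmax N θ g hθ hg hsupp hbd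
  have hmd : (1 : ℝ) ≤ (m : ℝ) ^ d := one_le_pow₀ (by exact_mod_cast hm1)
  have hmhd : (m : ℝ) ^ d * h ^ d ≤ C1 ^ d := by
    rw [← mul_pow]
    exact pow_le_pow_left₀ (by positivity) hmh2 d
  refine ⟨l, min 1 κ0, n, ψ, E, hl1, hl2, hη0, min_le_left _ _, ?_, ?_, ?_, hgap', hψ, hE⟩
  · rcases le_total 1 κ0 with hk | hk
    · rw [min_eq_left hk, mul_one]
      have : h ^ (2 * d) ≤ 1 := pow_le_one₀ hh.le hle1
      linarith
    · rw [min_eq_right hk, hκ, ← mul_div_assoc, le_div_iff₀ (by positivity)]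
      have e1 : h ^ (2 * d) = h ^ d * h ^ d := by rw [two_mul, pow_add]
      have e2 : C1 ^ (2 * d) = C1 ^ d * C1 ^ d := by rw [two_mul, pow_add]
      have hsq : ((m : ℝ) ^ d * h ^ d) * ((m : ℝ) ^ d * h ^ d) ≤ C1 ^ d * C1 ^ d :=
        mul_le_mul hmhd hmhd (by positivity) (by positivity)
      have h3 : 8 * ((m : ℝ) ^ d + 1) * ((m : ℝ) ^ d + 2) ≤ 48 * ((m : ℝ) ^ d * (m : ℝ) ^ d) := by
        nlinarith
      have hhd : 0 ≤ h ^ d * h ^ d := by positivity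
      have h4 := mul_le_mul_of_nonneg_left h3 hhd
      rw [e1, e2]
      have h5 : 24 * (C1 ^ d * C1 ^ d) * 2 ≤ 24 * (C1 ^ d * C1 ^ d) * (M / 12) := by
        apply mul_le_mul_of_nonneg_left _ (by positivity)
        linarith
      nlinarith
  · refine le_trans (le_of_eq ?_) (hN.trans (by exact_mod_cast hNn))
    rw [Real.div_rpow hM0.le (by norm_num)]
    ring
  · have h6 : (n : ℝ) ≤ (m : ℝ) ^ d := by exact_mod_cast hn
    have h7 := mul_le_mul_of_nonneg_right h6 (pow_nonneg hh.le d)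
    have h8 : 0 ≤ C1 ^ (2 * d) := by positivity
    linarith

end Pool.Agent.W479.CP
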